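import Pool.Agent.Lib.MP_97567f_al.F4.TopG
import Pool.Agent.Lib.MP_97567f_al.U.Cpx
import Pool.Agent.Lib.MP_97567f_al.U.Last

/-!
# MP_97567f_al: linearity of the automorphism groups of the Artin groups of finite type
-/

set_option autoImplicit false

namespace Pool.Agent.Results.MP_97567f_al.ComplexLinear

/-- Let `M` be a Coxeter matrix whose Coxeter group is finite (all types, irreducible or not). Then the automorphism
group of the Artin group of `M` is isomorphic to a group of complex matrices. -/
theorem result :
  ∀ (n : ℕ) (M : CoxeterMatrix (Fin n)), Finite M.Group →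
    ∃ (d : ℕ)
      (f : MulAut (PresentedGroup (Set.range (fun p : Fin n × Fin n =>
          ((List.range (M.M p.1 p.2)).map (fun k : ℕ =>
              if k % 2 = 0 then FreeGroup.of p.1 else FreeGroup.of p.2)).prod *
          (((List.range (M.M p.1 p.2)).map (fun k : ℕ =>
              if k % 2 = 0 then FreeGroup.of p.2 else FreeGroup.of p.1)).prod)⁻¹)))
        →* Matrix.GeneralLinearGroup (Fin d) ℂ),
      Function.Injective f := by
  intro n M hf
  exact Pool.Agent.Lib.MP_97567f_al.U.lin_complex (Pool.Agent.Lib.MP_97567f_al.U.last_of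
    Pool.Agent.Lib.MP_97567f_al.F4.good_F4' Pool.Agent.Lib.MP_97567f_al.U.good_H3'
    Pool.Agent.Lib.MP_97567f_al.U.good_H4' n M hf)

end Pool.Agent.Results.MP_97567f_al.ComplexLinear
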